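import Pool.Agent.H38.CUBE.JJStmts

/-!
# MP_47888e_al, block JJ: module JJIOTA (the coboundary of the face)
-/

set_option autoImplicit false

open Polynomial

namespace Pool.CUBE

open Pool.CM Pool.H93.Cube

namespace J_JJIOTA

open Corner

variable {n : ℕ} {E : Type} [Field E]

/-! ### homogeneity -/

theorem linMon_sum {σ A M : Type} [CommRing A] [AddCommGroup M] [Module A M]
    (f : (σ →₀ ℕ) → M) (g : MvPolynomial σ A) :
    linMon f g = ∑ a ∈ g.support, g.coeff a • f a := by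
  conv_lhs => rw [MvPolynomial.as_sum g, map_sum]
  exact Finset.sum_congr rfl fun a _ => linMon_monomial f a _

theorem sigP_homog (n : ℕ) (R : Type) [CommRing R] : (SigP n R).IsHomogeneous 1 :=
  MvPolynomial.IsHomogeneous.sum _ _ _ fun i _ => MvPolynomial.isHomogeneous_X R i

theorem clP_homog (n : ℕ) (R : Type) [CommRing R] (l : Fin n) : (clP n R l).IsHomogeneous 1 :=
  MvPolynomial.IsHomogeneous.sum _ _ _ fun i _ => MvPolynomial.isHomogeneous_X R i

theorem fer_homog (n D : ℕ) (R : Type) [CommRing R] : (fer n D R).IsHomogeneous D :=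
  MvPolynomial.IsHomogeneous.sum _ _ _ fun i _ => by
    have := (MvPolynomial.isHomogeneous_X R i).pow D
    rwa [one_mul] at this

theorem homD_homog (D : ℕ) (f : MvPolynomial (Fin n) E)
    (h : ∀ γ ∈ f.support, γ.degree ≤ D) : (homD D f).IsHomogeneous D := by
  unfold homD
  rw [linMon_sum]
  refine MvPolynomial.IsHomogeneous.sum _ _ _ fun γ hγ => ?_
  rw [MvPolynomial.smul_eq_C_mul]
  have h1 : (SigP n E ^ (D - γ.degree)).IsHomogeneous (1 * (D - γ.degree)) :=
    (sigP_homog n E).pow _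
  have h2 : (∏ l, clP n E l ^ γ l).IsHomogeneous (∑ l, 1 * γ l) :=
    MvPolynomial.IsHomogeneous.prod _ _ _ fun l _ => (clP_homog n E l).pow _
  have h3 := (MvPolynomial.isHomogeneous_C (Fin (n + 1)) (f.coeff γ)).mul (h1.mul h2)
  have h4 : 0 + (1 * (D - γ.degree) + ∑ l, 1 * γ l) = D := by
    have h5 : ∑ l, 1 * γ l = γ.degree := by
      simp [Finsupp.degree_eq_sum]
    rw [h5]
    have := h γ hγ
    omega
  rw [h4] at h3
  exact h3

theorem G_homog (K : Corner n E) (k : ℕ) : (K.G k).IsHomogeneous K.D := by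
  unfold Corner.G
  refine homD_homog _ _ fun γ hγ => ?_
  have h1 : γ.degree ≤ (MvPolynomial.monomial K.μ (1 : E) * K.W k).totalDegree :=
    MvPolynomial.le_totalDegree hγ
  have h2 : (MvPolynomial.monomial K.μ (1 : E)).totalDegree ≤ K.μ.degree :=
    MvPolynomial.totalDegree_monomial_le _ _
  have h3 := MvPolynomial.totalDegree_mul (MvPolynomial.monomial K.μ (1 : E)) (K.W k)
  have h4 : (K.W k).totalDegree ≤ (K.w.coeff k).totalDegree := by
    unfold Corner.W
    rcases Nat.eq_zero_or_pos k with rfl | hk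
    · rw [Polynomial.coeff_add, K.hw, Polynomial.coeff_one_zero, add_zero]
      simp
    · rw [Polynomial.coeff_add, Polynomial.coeff_one, if_neg (by omega), zero_add]
  have h5 := K.hdeg k
  omega

theorem G_zero (K : Corner n E) (k : ℕ) (hk : (1 + K.w).natDegree < k) : K.G k = 0 := by
  unfold Corner.G Corner.W
  rw [Polynomial.coeff_eq_zero_of_natDegree_lt hk, mul_zero, map_zero]

theorem map_sigP {A B : Type} [CommRing A] [CommRing B] (f : A →+* B) :
    MvPolynomial.map f (SigP n A) = SigP n B := by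
  simp [SigP]

theorem map_fer {A B : Type} [CommRing A] [CommRing B] (D : ℕ) (f : A →+* B) :
    MvPolynomial.map f (fer n D A) = fer n D B := by
  simp [fer]

theorem P_eq (K : Corner n E) :
    K.P = MvPolynomial.C (sigF E) * MvPolynomial.map (cF E) (SigP n E ^ K.D) -
      ∑ k ∈ Finset.range ((1 + K.w).natDegree + 1),
        MvPolynomial.C (tauF E ^ k) * MvPolynomial.map (cF E) (K.G k) +
      MvPolynomial.C (lamF E) * MvPolynomial.map (cF E) (fer n K.D E) := by
  have h0 : (algebraMap (RatFunc (RatFunc E)) (F3 E)) = RatFunc.C := RatFunc.algebraMap_eq_C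
  unfold Corner.P ferm Corner.P0
  rw [h0, map_sub, map_mul, map_pow, MvPolynomial.map_C, map_sum, map_pow, map_sigP, map_sigP,
    map_fer]
  congr 1
  congr 1
  refine Finset.sum_congr rfl fun k _ => ?_
  rw [map_mul, MvPolynomial.map_C, MvPolynomial.map_map, map_pow]
  rfl

theorem P_homog (K : Corner n E) : K.P.IsHomogeneous K.D := by
  rw [P_eq]
  have hC : ∀ (x : F3 E) (q : MvPolynomial (Fin (n + 1)) E), q.IsHomogeneous K.D →
      (MvPolynomial.C x * MvPolynomial.map (cF E) q).IsHomogeneous K.D := by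
    intro x q hq
    have := (MvPolynomial.isHomogeneous_C (Fin (n + 1)) x).mul (hq.map (cF E))
    rwa [zero_add] at this
  refine ((hC _ _ ?_).sub (MvPolynomial.IsHomogeneous.sum _ _ _ fun k _ => hC _ _
    (G_homog K k))).add (hC _ _ (fer_homog _ _ _))
  have := (sigP_homog n E).pow K.D
  rwa [one_mul] at this

/-- no levels -/
theorem JJ_homog (h3 : JJLVStmt) (K : Corner n E) (j e : ℕ)
    (g : MvPolynomial (Fin (n + 1)) (F3 E)) (hg : g.IsHomogeneous e)
    (he : ¬ K.D ∣ e + (n + 1)) : K.JJ j g = 0 := by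
  rw [MvPolynomial.as_sum g, map_sum]
  refine Finset.sum_eq_zero fun a ha => ?_
  refine h3 n E K j _ a ?_
  have : a.degree = e := by
    have := hg (MvPolynomial.mem_support_iff.1 ha)
    rw [← this, Finsupp.degree_eq_weight_one]
    rfl
  rwa [this]

theorem sum_range_ite {M : Type} [AddCommMonoid M] (a b : ℕ) (F : ℕ → M)
    (hF : ∀ k, a < k → F k = 0) :
    (∑ k ∈ Finset.range (a + 1), if k ≤ b then F k else 0) = ∑ k ∈ Finset.range (b + 1), F k := by
  have h1 : (∑ k ∈ Finset.range (a + 1), if k ≤ b then F k else 0) =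
      ∑ k ∈ Finset.range (a + b + 1), if k ≤ b then F k else 0 := by
    refine Finset.sum_subset (Finset.range_subset_range.2 (by omega)) fun k _ hk => ?_
    rw [Finset.mem_range, not_lt] at hk
    rw [hF k (by omega), ite_self]
  have h2 : (∑ k ∈ Finset.range (b + 1), F k) =
      ∑ k ∈ Finset.range (b + 1), if k ≤ b then F k else 0 := by
    refine Finset.sum_congr rfl fun k hk => ?_
    rw [Finset.mem_range] at hk
    rw [if_pos (by omega)]
  rw [h1, h2]
  symm
  refine Finset.sum_subset (Finset.range_subset_range.2 (by omega)) fun k _ hk => ?_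
  rw [Finset.mem_range, not_lt] at hk
  rw [if_neg (by omega)]

theorem Ainf_zero (K : Corner n E) (L l t : ℕ) (N : ℤ) : K.Ainf L 0 l t N = 0 := by
  unfold Corner.Ainf
  split_ifs
  · rw [zero_mul, zero_mul, map_zero, mul_zero]
  · rfl

theorem rr_zero (K : Corner n E) (L l t : ℕ) : K.rr L 0 l t = 0 := by
  unfold Corner.rr
  have : (∑ j ∈ Finset.range (t + 1), binR E j *
        Mell K.μ (zc (0 * fer n K.D E ^ l) * (K.w ^ j).coeff t)) = 0 := by
    refine Finset.sum_eq_zero fun j _ => ?_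
    rw [zero_mul, map_zero, zero_mul, map_zero, mul_zero]
  rw [this, map_zero, mul_zero]

section Rcs

variable [CharZero E]

/-- `Rc` as an additive map -/
noncomputable def RH (h1 : RCStmt) (j : ℕ) (N : ℤ) : RatFunc E →+ E :=
  AddMonoidHom.mk' (Rc j N) ((h1 E).1 j N)

theorem RH_apply (h1 : RCStmt) (j : ℕ) (N : ℤ) (r : RatFunc E) : RH h1 j N r = Rc j N r := rfl

end Rcs

/-- the combination of `Ainf` and `rr` -/
noncomputable def AR (K : Corner n E) (j L : ℕ) (g : MvPolynomial (Fin (n + 1)) E) (l t : ℕ)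
    (N : ℤ) : E :=
  (if j = 0 then K.Ainf L g l t N else 0) - Rc j N (K.rr L g l t)

theorem AR_zero [CharZero E] (h1 : RCStmt) (K : Corner n E) (j L l t : ℕ) (N : ℤ) :
    AR K j L 0 l t N = 0 := by
  unfold AR
  rw [Ainf_zero, rr_zero, ite_self, ← RH_apply h1, map_zero, sub_zero]

theorem coeAR [CharZero E] (h4 : COEStmt) (K : Corner n E) (j L : ℕ)
    (g : MvPolynomial (Fin (n + 1)) E) (x : F3 E) (u v w : ℕ)
    (hx : x = lamF E ^ u * sigF E ^ v * tauF E ^ w) (hL : 1 ≤ L)
    (hg : g.IsHomogeneous (K.D * L - (n + 1))) (hn : n + 1 ≤ K.D * L) (l s t : ℤ) :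
    (((K.JJ j (MvPolynomial.C x * MvPolynomial.map (cF E) g)).coeff l).coeff s).coeff t =
      if (u : ℤ) ≤ l ∧ (w : ℤ) ≤ t then
        AR K j L g (l - u).toNat (t - w).toNat (-(s - v) - 1) else 0 := by
  rw [hx]
  exact h4 n E K j L g u v w hL hg hn l s t

/-- the coboundary relation on `AR` -/
theorem AR_iota [CharZero E] (h1 : RCStmt) (h5 : AIOTAStmt) (h6 : RIOTAStmt)
    (K : Corner (n + 1) E) (K0 : Corner n E) (hK : IsFace K K0) (j L l t : ℕ)
    (g : MvPolynomial (Fin (n + 1)) E) (N : ℤ) (hL : 1 ≤ L)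
    (hg : g.IsHomogeneous (K.D * L - (n + 1))) (hn : n + 1 ≤ K.D * L) :
    AR K0 j L g l t N =
      AR K j (L + 1) (MvPolynomial.pderiv 0 (SigP (n + 1) E ^ K.D) *
        MvPolynomial.rename Fin.succ g) l t (N + 1) -
      (∑ k ∈ Finset.range (t + 1), AR K j (L + 1) (MvPolynomial.pderiv 0 (K.G k) *
        MvPolynomial.rename Fin.succ g) l (t - k) N) +
      (if l = 0 then 0 else AR K j (L + 1) (MvPolynomial.pderiv 0 (fer (n + 1) K.D E) *
        MvPolynomial.rename Fin.succ g) (l - 1) t N) := by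
  have hA := h5 n E K K0 hK L l t g N hL hg hn
  have hR := h6 n E K K0 hK L l t g hL hg hn
  have hR' := congrArg (RH h1 j N) hR
  have h7 : ∀ r : RatFunc E, RH h1 j N (affR 1 1 one_ne_zero r) = RH h1 j (N + 1) r := by
    intro r
    have := (h1 E).2.2.1 j N 1 r
    rw [Int.cast_one] at this
    exact this
  rw [map_add, map_sub, map_sum, h7] at hR'
  unfold AR
  rw [← RH_apply h1 j N (K0.rr L g l t), hR']
  simp only [Finset.sum_sub_distrib]
  by_cases hj : j = 0
  · simp only [if_pos hj]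
    rw [hA]
    by_cases hl : l = 0
    · simp only [if_pos hl, map_zero, RH_apply]
      ring
    · simp only [if_neg hl, RH_apply]
      ring
  · simp only [if_neg hj]
    by_cases hl : l = 0
    · simp only [if_pos hl, map_zero, RH_apply, Finset.sum_const_zero]
      ring
    · simp only [if_neg hl, RH_apply, Finset.sum_const_zero]
      ring

/-- the formula for numerators with coefficients in `E` -/
theorem key [CharZero E] (h1 : RCStmt) (h4 : COEStmt) (h5 : AIOTAStmt)
    (h6 : RIOTAStmt) (K : Corner (n + 1) E) (K0 : Corner n E) (hK : IsFace K K0) (j L : ℕ)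
    (g : MvPolynomial (Fin (n + 1)) E) (hL : 1 ≤ L)
    (hg : g.IsHomogeneous (K.D * L - (n + 1))) (hn : n + 1 ≤ K.D * L) :
    K.JJ j (MvPolynomial.pderiv 0 K.P *
      MvPolynomial.rename Fin.succ (MvPolynomial.map (cF E) g)) =
      K0.JJ j (MvPolynomial.map (cF E) g) := by
  have hD := K.hD
  have hhom : ∀ q : MvPolynomial (Fin (n + 2)) E, q.IsHomogeneous K.D →
      (MvPolynomial.pderiv 0 q * MvPolynomial.rename Fin.succ g).IsHomogeneous
        (K.D * (L + 1) - (n + 1 + 1)) := by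
    intro q hq
    have h := (hq.pderiv (i := 0)).mul (hg.rename_isHomogeneous (f := Fin.succ))
    have h' : K.D - 1 + (K.D * L - (n + 1)) = K.D * (L + 1) - (n + 1 + 1) := by
      rw [mul_add, mul_one]
      omega
    rwa [h'] at h
  have hn' : n + 1 + 1 ≤ K.D * (L + 1) := by
    rw [mul_add, mul_one]
    omega
  have hS : (SigP (n + 1) E ^ K.D).IsHomogeneous K.D := by
    have := (sigP_homog (n + 1) E).pow K.D
    rwa [one_mul] at this
  have e1 : MvPolynomial.pderiv 0 K.P *
      MvPolynomial.rename Fin.succ (MvPolynomial.map (cF E) g) =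
      MvPolynomial.C (sigF E) * MvPolynomial.map (cF E)
        (MvPolynomial.pderiv 0 (SigP (n + 1) E ^ K.D) * MvPolynomial.rename Fin.succ g) -
      ∑ k ∈ Finset.range ((1 + K.w).natDegree + 1),
        MvPolynomial.C (tauF E ^ k) * MvPolynomial.map (cF E)
          (MvPolynomial.pderiv 0 (K.G k) * MvPolynomial.rename Fin.succ g) +
      MvPolynomial.C (lamF E) * MvPolynomial.map (cF E)
        (MvPolynomial.pderiv 0 (fer (n + 1) K.D E) * MvPolynomial.rename Fin.succ g) := by
    rw [P_eq]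
    simp only [map_add, map_sub, map_sum, MvPolynomial.pderiv_C_mul, MvPolynomial.pderiv_map,
      map_mul, MvPolynomial.map_rename, add_mul, sub_mul,
      Finset.sum_mul, mul_assoc]
  rw [e1, map_add, map_sub, map_sum]
  ext l s t
  simp only [HahnSeries.coeff_add, HahnSeries.coeff_sub, HahnSeries.coeff_sum]
  rw [coeAR h4 K j (L + 1) _ (sigF E) 0 1 0 (by rw [pow_zero, pow_one, pow_zero, one_mul, mul_one])
      (by omega) (hhom _ hS) hn' l s t,
    coeAR h4 K j (L + 1) _ (lamF E) 1 0 0 (by rw [pow_zero, pow_one, pow_zero, mul_one, mul_one])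
      (by omega) (hhom _ (fer_homog _ _ _)) hn' l s t]
  have e2 : ∀ k ∈ Finset.range ((1 + K.w).natDegree + 1),
      (((K.JJ j (MvPolynomial.C (tauF E ^ k) * MvPolynomial.map (cF E)
        (MvPolynomial.pderiv 0 (K.G k) * MvPolynomial.rename Fin.succ g))).coeff l).coeff s).coeff t
      = if ((0 : ℕ) : ℤ) ≤ l ∧ (k : ℤ) ≤ t then
        AR K j (L + 1) (MvPolynomial.pderiv 0 (K.G k) * MvPolynomial.rename Fin.succ g)
          (l - ((0 : ℕ) : ℤ)).toNat (t - k).toNat (-(s - ((0 : ℕ) : ℤ)) - 1) else 0 := by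
    intro k _
    exact coeAR h4 K j (L + 1) _ (tauF E ^ k) 0 0 k (by rw [pow_zero, pow_zero, one_mul, one_mul])
      (by omega) (hhom _ (G_homog K k)) hn' l s t
  rw [Finset.sum_congr rfl e2]
  have e3 : (((K0.JJ j (MvPolynomial.map (cF E) g)).coeff l).coeff s).coeff t =
      if ((0 : ℕ) : ℤ) ≤ l ∧ ((0 : ℕ) : ℤ) ≤ t then
        AR K0 j L g (l - ((0 : ℕ) : ℤ)).toNat (t - ((0 : ℕ) : ℤ)).toNat
          (-(s - ((0 : ℕ) : ℤ)) - 1) else 0 := by
    have h := coeAR h4 K0 j L g 1 0 0 0 (by simp) hL (by rw [hK.1]; exact hg)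
      (by rw [hK.1]; exact hn) l s t
    rwa [map_one, one_mul] at h
  rw [e3]
  simp only [Nat.cast_zero, sub_zero, Nat.cast_one]
  by_cases hl : 0 ≤ l
  swap
  · have c1 : ¬ (0 ≤ l ∧ 0 ≤ t) := fun h => hl h.1
    have c2 : ¬ (1 ≤ l ∧ 0 ≤ t) := fun h => hl (by omega)
    have c3 : ∀ k : ℕ, ¬ (0 ≤ l ∧ (k : ℤ) ≤ t) := fun k h => hl h.1
    simp only [if_neg c1, if_neg c2, if_neg (c3 _), Finset.sum_const_zero, sub_zero, add_zero]
  by_cases ht : 0 ≤ t
  swap
  · have c1 : ¬ (0 ≤ l ∧ 0 ≤ t) := fun h => ht h.2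
    have c2 : ¬ (1 ≤ l ∧ 0 ≤ t) := fun h => ht h.2
    have c3 : ∀ k : ℕ, ¬ (0 ≤ l ∧ (k : ℤ) ≤ t) := fun k h => ht (by omega)
    simp only [if_neg c1, if_neg c2, if_neg (c3 _), Finset.sum_const_zero, sub_zero, add_zero]
  obtain ⟨l', rfl⟩ := Int.eq_ofNat_of_zero_le hl
  obtain ⟨t', rfl⟩ := Int.eq_ofNat_of_zero_le ht
  have c1 : (0 : ℤ) ≤ (l' : ℤ) ∧ (0 : ℤ) ≤ (t' : ℤ) := ⟨hl, ht⟩
  simp only [if_pos c1, Int.toNat_natCast]
  rw [AR_iota h1 h5 h6 K K0 hK j L l' t' g (-s - 1) hL hg hn]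
  have e4 : -(s - 1) - 1 = -s - 1 + 1 := by ring
  rw [e4]
  congr 1
  · congr 1
    have hF : ∀ k, (1 + K.w).natDegree < k → AR K j (L + 1) (MvPolynomial.pderiv 0 (K.G k) *
        MvPolynomial.rename Fin.succ g) l' (t' - k) (-s - 1) = 0 := by
      intro k hk
      rw [G_zero K k hk, map_zero, zero_mul, AR_zero h1]
    rw [← sum_range_ite (1 + K.w).natDegree t' _ hF]
    refine Finset.sum_congr rfl fun k _ => ?_
    by_cases hk : k ≤ t'
    · have c2 : (0 : ℤ) ≤ (l' : ℤ) ∧ (k : ℤ) ≤ (t' : ℤ) := ⟨hl, by exact_mod_cast hk⟩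
      have c3 : ((t' : ℤ) - (k : ℤ)).toNat = t' - k := by omega
      rw [if_pos c2, if_pos hk, c3]
    · have c2 : ¬ ((0 : ℤ) ≤ (l' : ℤ) ∧ (k : ℤ) ≤ (t' : ℤ)) := fun h => hk (by omega)
      rw [if_neg c2, if_neg hk]
  · by_cases hl' : l' = 0
    · subst hl'
      have c2 : ¬ ((1 : ℤ) ≤ ((0 : ℕ) : ℤ) ∧ (0 : ℤ) ≤ (t' : ℤ)) := fun h => by omega
      simp only [if_neg c2, if_pos]
    · have c2 : (1 : ℤ) ≤ (l' : ℤ) ∧ (0 : ℤ) ≤ (t' : ℤ) := ⟨by omega, ht⟩
      have c3 : ((l' : ℤ) - 1).toNat = l' - 1 := by omega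
      rw [if_pos c2, if_neg hl', c3]

end J_JJIOTA

theorem jjiota_thm (h1 : RCStmt) (h2 : Corner.LINStmt) (h3 : Corner.JJLVStmt)
    (h4 : Corner.COEStmt) (h5 : Corner.AIOTAStmt) (h6 : Corner.RIOTAStmt)
    (_ : Corner.FACEPStmt) : Corner.JJIOTAStmt := by
  intro n E _ _ K K0 hK j g
  have hmon : ∀ b : Fin (n + 1) →₀ ℕ,
      K.JJ j (MvPolynomial.pderiv 0 K.P * MvPolynomial.rename Fin.succ
        (MvPolynomial.map (Corner.cF E) (MvPolynomial.monomial b (1 : E)))) =
      K0.JJ j (MvPolynomial.map (Corner.cF E) (MvPolynomial.monomial b (1 : E))) := by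
    intro b
    have hD := K.hD
    by_cases hb : K.D ∣ b.degree + (n + 1)
    · obtain ⟨L, hL⟩ := hb
      have hL1 : 1 ≤ L := by
        rcases Nat.eq_zero_or_pos L with rfl | h
        · omega
        · exact h
      refine J_JJIOTA.key h1 h4 h5 h6 K K0 hK j L _ hL1 ?_ (by omega)
      have : K.D * L - (n + 1) = b.degree := by omega
      rw [this]
      exact MvPolynomial.isHomogeneous_monomial _ rfl
    · have hm : (MvPolynomial.map (Corner.cF E) (MvPolynomial.monomial b (1 : E))).IsHomogeneous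
          b.degree :=
        (MvPolynomial.isHomogeneous_monomial (1 : E) (rfl : b.degree = b.degree)).map _
      rw [J_JJIOTA.JJ_homog h3 K0 j b.degree _ hm (by rw [hK.1]; exact hb)]
      refine J_JJIOTA.JJ_homog h3 K j (K.D - 1 + b.degree) _
        (((J_JJIOTA.P_homog K).pderiv (i := 0)).mul
          (hm.rename_isHomogeneous (f := Fin.succ))) ?_
      intro h
      apply hb
      have e : K.D - 1 + b.degree + (n + 1 + 1) = K.D + (b.degree + (n + 1)) := by omega
      rw [e] at h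
      exact (Nat.dvd_add_right (dvd_refl K.D)).1 h
  induction g using MvPolynomial.induction_on' with
  | monomial b x =>
    have e : (MvPolynomial.monomial b x : MvPolynomial (Fin (n + 1)) (F3 E)) =
        x • MvPolynomial.map (Corner.cF E) (MvPolynomial.monomial b (1 : E)) := by
      rw [MvPolynomial.map_monomial, map_one, MvPolynomial.smul_monomial, smul_eq_mul, mul_one]
    rw [e, h2, ← hmon, ← h2]
    congr 1
    rw [map_smul, mul_smul_comm]
  | add p q hp hq =>
    rw [map_add, mul_add, map_add, map_add, hp, hq]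

end Pool.CUBE
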